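import Pool.Agent.Q286.Apn.Even

/-!
All exclude multiplicities of the graph of a plateaued APN function in dimension at least three
are odd.
-/

namespace Pool.Agent.Results.MP_b298ef_co.Parity

open Finset Pool.Agent.Q286.Apn

theorem odd_dim {n : ℕ} (hn : 2 ≤ n) (hodd : Odd n) (F : V n → V n) (hA : IsAPN F)
    (hP : IsPlateaued F) (a b : V n) (hb : b ≠ F a) : Odd (mult (graph F) (a, b)) := by
  classical
  choose j h1 h2 h3 h4 using amplitude F hP
  have hL := sum_L F (fun v => (2 ^ j v) ^ 2) (fun v u => cube_of_cases (h3 v u)) a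
  have hL0 := hL 0
  simp only [ip_zero_right, sgn_zero, one_mul] at hL0
  rw [cnt_zero F hA a] at hL0
  have hcard : ((univ.erase (0 : V n)).card : ℤ) = 2 ^ n - 1 := by
    rw [card_erase_of_mem (mem_univ _), Nat.cast_sub, card_V]
    · rfl
    · exact card_pos.2 ⟨0, mem_univ _⟩
  have hge : ∀ v ∈ univ.erase (0 : V n), (2 : ℤ) ^ (n + 1) ≤ (2 ^ j v) ^ 2 := by
    intro v _
    rw [← pow_mul]
    apply pow_le_pow_right₀ (by norm_num)
    have := h1 v
    obtain ⟨t, ht⟩ := hodd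
    omega
  have hz : ((2 : ℤ) ^ j 0) ^ 2 = 2 ^ (2 * n) := by
    rw [h2 0 rfl, ← pow_mul, mul_comm]
  have hsum : ∑ v ∈ univ.erase (0 : V n), (2 : ℤ) ^ (n + 1) =
      ∑ v ∈ univ.erase (0 : V n), ((2 : ℤ) ^ j v) ^ 2 := by
    rw [sum_const, nsmul_eq_mul, hcard]
    rw [← add_sum_erase univ _ (mem_univ (0 : V n)), hz] at hL0
    have e1 : (2 : ℤ) ^ (2 * n) = 2 ^ n * 2 ^ n := by rw [two_mul, pow_add]
    rw [e1] at hL0
    rw [pow_succ]
    linarith
  have heq := (sum_eq_sum_iff_of_le hge).1 hsum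
  have hLc := hL (F a + b)
  rw [cnt_eq_mult F a b hb] at hLc
  have hc : F a + b ≠ 0 := by
    intro h
    exact hb (eq_of_vadd_eq_zero h).symm
  have e2 : ∑ v, sgn (ip v (F a + b)) * ((2 : ℤ) ^ j v) ^ 2 = 2 ^ (2 * n) - 2 ^ (n + 1) := by
    have e3 := sum_sgn_ip (F a + b)
    rw [if_neg hc, ← add_sum_erase univ _ (mem_univ (0 : V n)), ip_zero_left, sgn_zero] at e3
    rw [← add_sum_erase univ _ (mem_univ (0 : V n)), ip_zero_left, sgn_zero, hz]
    have e4 : ∑ v ∈ univ.erase (0 : V n), sgn (ip v (F a + b)) * ((2 : ℤ) ^ j v) ^ 2 =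
        (∑ v ∈ univ.erase (0 : V n), sgn (ip v (F a + b))) * 2 ^ (n + 1) := by
      rw [sum_mul]
      apply sum_congr rfl
      intro v hv
      rw [← heq v hv]
    rw [e4]
    have e5 : ∑ v ∈ univ.erase (0 : V n), sgn (ip v (F a + b)) = -1 := by linarith
    rw [e5]; ring
  rw [e2] at hLc
  obtain ⟨m, rfl⟩ : ∃ m, n = m + 2 := ⟨n - 2, by omega⟩
  have e6 : (2 : ℤ) ^ (2 * (m + 2)) - 2 ^ (m + 2 + 1) = 2 ^ (m + 2) * (2 ^ (m + 2) - 2) := by
    ring
  rw [e6] at hLc
  have e7 := mul_left_cancel₀ (by positivity) hLc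
  push_cast at e7
  rw [← Nat.not_even_iff_odd]
  rintro ⟨r, hr⟩
  rw [hr] at e7
  have e8 : (2 : ℤ) ^ (m + 2) = 4 * 2 ^ m := by ring
  rw [e8] at e7
  push_cast at e7
  omega

theorem even_dim {k : ℕ} (hk : 2 ≤ k) (F : V (2 * k) → V (2 * k)) (hA : IsAPN F)
    (hP : IsPlateaued F) (a b : V (2 * k)) (hb : b ≠ F a) : Odd (mult (graph F) (a, b)) := by
  classical
  obtain ⟨j, hD⟩ := exists_data F hP
  set c := F a + b with hcdef
  have m0 := hD.moment a 0
  have mc := hD.moment a c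
  rw [cnt_zero F hA a] at m0
  rw [hcdef, cnt_eq_mult F a b hb, ← hcdef] at mc
  simp only [ip_zero_right, sgn_zero, one_mul] at m0
  -- sums of the normalised coefficients
  have s0 := sum_walsh_sgn F 0 0
  have sc := sum_walsh_sgn F 0 c
  simp only [ip_zero_right, ip_zero_left, sgn_zero, one_mul, sum_const, nsmul_eq_mul, mul_one]
    at s0 sc
  have e0 : (∑ v, (1 + sgn (ip v c)) * hh F v : ℤ) =
      2 ^ k * (((univ.filter (fun x => F x = 0)).card : ℤ) +
        ((univ.filter (fun x => F x = c)).card : ℤ)) := by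
    have hk0 : (2 : ℤ) ^ k ≠ 0 := by positivity
    apply mul_left_cancel₀ hk0
    have e1 : (2 : ℤ) ^ k * ∑ v, (1 + sgn (ip v c)) * hh F v =
        ∑ v, walsh F 0 v + ∑ v, sgn (ip v c) * walsh F 0 v := by
      rw [mul_sum, ← sum_add_distrib]
      apply sum_congr rfl
      intro v _
      rw [hD.walsh_eq_hh v]; ring
    rw [e1, s0, sc]
    have e2 : (2 : ℤ) ^ (2 * k) = 2 ^ k * 2 ^ k := by rw [two_mul, pow_add]
    rw [e2]; ring
  have e3 : (∑ v, (1 + sgn (ip v c)) * ((2 : ℤ) ^ (j v - k)) ^ 2) =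
      3 * 2 ^ (2 * k) - 2 + ((6 * mult (graph F) (a, b) : ℕ) : ℤ) := by
    rw [← m0, ← mc, ← sum_add_distrib]
    apply sum_congr rfl
    intro v _
    ring
  have e4 : (4 : ℤ) ∣ (∑ v, (1 + sgn (ip v c)) * ((2 : ℤ) ^ (j v - k)) ^ 2) -
      ∑ v, (1 + sgn (ip v c)) * hh F v := by
    rw [← sum_sub_distrib]
    apply dvd_sum
    intro v _
    rw [← mul_sub]
    have h2 : (2 : ℤ) ∣ 1 + sgn (ip v c) := by
      unfold sgn
      split_ifs
      · norm_num
      · norm_num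
    have h3 : (2 : ℤ) ∣ ((2 : ℤ) ^ (j v - k)) ^ 2 - hh F v := by
      rw [← even_iff_two_dvd, Int.even_sub, ← not_iff_not, Int.not_even_iff_odd,
        Int.not_even_iff_odd, hD.g_parity, hD.hh_parity]
    have h4 := mul_dvd_mul h2 h3
    norm_num at h4
    exact h4
  rw [e0, e3] at e4
  obtain ⟨t, rfl⟩ : ∃ t, k = t + 2 := ⟨k - 2, by omega⟩
  have e5 : (2 : ℤ) ^ (t + 2) = 4 * 2 ^ t := by ring
  have e6 : (2 : ℤ) ^ (2 * (t + 2)) = 4 * (4 * (2 ^ t * 2 ^ t)) := by ring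
  rw [e5, e6] at e4
  rw [← Nat.not_even_iff_odd]
  rintro ⟨r, hr⟩
  rw [hr] at e4
  push_cast at e4
  obtain ⟨q, hq⟩ := e4
  have : (2 : ℤ) = 4 * (3 * (4 * (2 ^ t * 2 ^ t)) + 3 * r -
      2 ^ t * (((univ.filter (fun x => F x = 0)).card : ℤ) +
        ((univ.filter (fun x => F x = c)).card : ℤ)) - q) := by linarith
  omega

/-- For every `n ≥ 3` and every plateaued APN function `F` on `F_2^n`, every point outside the
graph of `F` has odd exclude multiplicity with respect to the graph. -/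
theorem result (n : ℕ) (hn : 3 ≤ n) (F : V n → V n) (hA : IsAPN F) (hP : IsPlateaued F)
    (p : V n × V n) (hp : p ∉ graph F) : Odd (mult (graph F) p) := by
  obtain ⟨a, b⟩ := p
  have hb : b ≠ F a := by
    rintro rfl
    exact hp (mem_image.2 ⟨a, mem_univ _, rfl⟩)
  rcases Nat.even_or_odd n with he | ho
  · obtain ⟨k, hk⟩ := he
    have hk' : n = 2 * k := by omega
    subst hk'
    exact even_dim (by omega) F hA hP a b hb
  · exact odd_dim (by omega) ho F hA hP a b hb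

end Pool.Agent.Results.MP_b298ef_co.Parity
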